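import Pool.Agent.helper83.SB.Spec
import Pool.Agent.helper21.SC.CH1

/-!
# MP_d2d7b9_gt, bridge, row PTC: coordinates
-/

open scoped Pointwise ContDiff
open MeasureTheory Set Filter Topology

namespace Pool.Agent.helper83.SB

open Pool.Agent.helper83.SC

theorem PTC_of : PTC_stmt := by
  intro m b
  have h1 : ∀ p s, coord b (pt b p s) = (p, s) := fun p s => CH1_coord_comb b (p, s)
  have h2 : ∀ z, pt b (coord b z).1 (coord b z).2 = z := fun z => (CH1_e b).left_inv z
  have he : ∀ y, emb b y = pt b y 1 := by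
    intro y
    simp [emb, pt]
  have h4 : ∀ y, coord b (emb b y) = (y, 1) := fun y => by rw [he, h1]
  have h3 : ∀ p s y, inner ℝ (pt b p s) (emb b y) = inner ℝ p y + s := by
    intro p s y
    rw [CH1_inner b, h1, h4, mul_one]
  have hpa : ∀ (c c' : ℝ) (p p' : E m) (s s' : ℝ),
      c • pt b p s + c' • pt b p' s' = pt b (c • p + c' • p') (c * s + c' * s') := by
    intro c c' p p' s s'
    simp only [pt, smul_add, Finset.smul_sum, smul_smul, add_smul, Finset.sum_add_distrib,
      PiLp.add_apply, PiLp.smul_apply, smul_eq_mul]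
    abel
  have h5 : ∀ y, 1 ≤ ‖emb b y‖ := by
    intro y
    have h := h3 y 1 y
    rw [← he, real_inner_self_eq_norm_sq, real_inner_self_eq_norm_sq] at h
    nlinarith [norm_nonneg (emb b y), sq_nonneg ‖y‖]
  have hc : Continuous (emb b) := by
    unfold emb
    fun_prop
  have hadd : ∀ v w, coord b (v + w) = coord b v + coord b w := (CH1_e b).map_add
  have hsmul : ∀ (c : ℝ) v, coord b (c • v) = c • coord b v := fun c v => (CH1_e b).map_smul c v
  refine ⟨h1, h2, h3, h4, h5, hc, ?_, ?_, (CH1_e b).continuous, hadd, hsmul⟩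
  · refine ⟨convex_univ, fun x _ y _ c c' h0 h0' hcc => ?_⟩
    have h : emb b (c • x + c' • y) = c • emb b x + c' • emb b y := by
      rw [he, he, he, hpa, mul_one, mul_one, hcc]
    show ‖emb b (c • x + c' • y)‖ ≤ c • ‖emb b x‖ + c' • ‖emb b y‖
    rw [h]
    refine (norm_add_le _ _).trans ?_
    rw [norm_smul, norm_smul, Real.norm_eq_abs, Real.norm_eq_abs, abs_of_nonneg h0,
      abs_of_nonneg h0', smul_eq_mul, smul_eq_mul]
  · intro v hv
    have h := hpa (coord b v).2 0 ((coord b v).2⁻¹ • (coord b v).1) 0 1 0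
    rw [he]
    simp only [zero_smul, add_zero, smul_smul, mul_inv_cancel₀ hv, one_smul, mul_one,
      mul_zero] at h
    rw [h, h2]

end Pool.Agent.helper83.SB
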